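import Pool.Agent.W307.RT.Stm

set_option autoImplicit false

namespace Pool.Agent.W605.RT

open Finset Pool.Agent.W262.RK Pool.Agent.W307.RT WeierstrassCurve.Affine

theorem sh_eq {A B : ℤ} {x y : ℚ} :
    (Sh A B).toAffine.Equation x y ↔ y ^ 2 = x ^ 3 + A * x + B := by
  rw [WeierstrassCurve.Affine.equation_iff]
  simp [Sh]

theorem sh_negY {A B : ℤ} {x y : ℚ} : (Sh A B).toAffine.negY x y = -y := by
  simp [WeierstrassCurve.Affine.negY, Sh]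

theorem two_tors {A B : ℤ} {Q : (Sh A B).toAffine.Point} (h : addOrderOf Q = 2) :
    ∃ (e : ℚ) (he : (Sh A B).toAffine.Nonsingular e 0), Q = Point.some e 0 he := by
  have h2 : Q + Q = 0 := by
    have := addOrderOf_nsmul_eq_zero Q
    rw [h, two_nsmul] at this
    exact this
  rcases Q with _ | ⟨x, y, hxy⟩
  · exfalso
    have : addOrderOf (Point.zero : (Sh A B).toAffine.Point) = 1 := addOrderOf_zero
    rw [this] at h
    norm_num at h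
  · by_cases hy : y = (Sh A B).toAffine.negY x y
    · rw [sh_negY] at hy
      have : y = 0 := by linarith
      subst this
      exact ⟨x, hxy, rfl⟩
    · rw [Point.add_self_of_Y_ne hy] at h2
      exact absurd h2 (Point.some_ne_zero _)

theorem four_tors {A B : ℤ} {P Q : (Sh A B).toAffine.Point} (hP : addOrderOf P = 4)
    (hQ : addOrderOf Q = 2) (hPQ : Q ∉ AddSubgroup.zmultiples P) :
    ∃ x y e1 e2 : ℚ, y ≠ 0 ∧ y ^ 2 = x ^ 3 + A * x + B ∧ e1 ^ 3 + A * e1 + B = 0 ∧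
      e2 ^ 3 + A * e2 + B = 0 ∧ e1 ≠ e2 ∧ e1 = ((3 * x ^ 2 + A) / (2 * y)) ^ 2 - 2 * x := by
  have h2 : addOrderOf (P + P) = 2 := by
    rw [← two_nsmul, addOrderOf_nsmul' P two_ne_zero, hP]
    norm_num
  obtain ⟨e1, h1, hPP⟩ := two_tors h2
  obtain ⟨e2, h2', hQ'⟩ := two_tors hQ
  have hne : e1 ≠ e2 := by
    intro h
    subst h
    apply hPQ
    rw [hQ', ← hPP, ← two_nsmul]
    exact AddSubgroup.nsmul_mem_zmultiples P 2
  have r1 := sh_eq.mp h1.1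
  have r2 := sh_eq.mp h2'.1
  rcases P with _ | ⟨x, y, hxy⟩
  · exfalso
    have : addOrderOf (Point.zero : (Sh A B).toAffine.Point) = 1 := addOrderOf_zero
    rw [this] at hP
    norm_num at hP
  · have hxy' := sh_eq.mp hxy.1
    by_cases hy : y = (Sh A B).toAffine.negY x y
    · exfalso
      rw [Point.add_self_of_Y_eq hy] at hPP
      exact Point.some_ne_zero _ hPP.symm
    · rw [Point.add_self_of_Y_ne hy] at hPP
      have hX := (Point.some.inj hPP).1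
      rw [sh_negY] at hy
      have hy0 : y ≠ 0 := by
        intro h0
        apply hy
        rw [h0]; simp
      refine ⟨x, y, e1, e2, hy0, hxy', by linarith, by linarith, hne, ?_⟩
      rw [← hX, WeierstrassCurve.Affine.addX, WeierstrassCurve.Affine.slope_of_Y_ne rfl (by rwa [sh_negY]),
        sh_negY]
      simp only [Sh]
      ring

theorem int_root {A B : ℤ} {e : ℚ} (h : e ^ 3 + A * e + B = 0) : ∃ E : ℤ, (E : ℚ) = e := by
  have : IsIntegral ℤ e := by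
    refine ⟨Polynomial.X ^ 3 + Polynomial.C A * Polynomial.X + Polynomial.C B, by monicity!, ?_⟩
    simp only [Polynomial.eval₂_add, Polynomial.eval₂_mul, Polynomial.eval₂_pow,
      Polynomial.eval₂_X, Polynomial.eval₂_C, algebraMap_int_eq, Int.coe_castRingHom]
    exact h
  obtain ⟨y, hy⟩ := IsIntegrallyClosed.isIntegral_iff.mp this
  exact ⟨y, hy⟩

theorem int_sqrt {M : ℤ} {m : ℚ} (h : (M : ℚ) = m ^ 2) : ∃ E : ℤ, (E : ℚ) = m := by
  have : IsIntegral ℤ m := by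
    refine ⟨Polynomial.X ^ 2 - Polynomial.C M, by monicity!, ?_⟩
    simp only [Polynomial.eval₂_sub, Polynomial.eval₂_pow,
      Polynomial.eval₂_X, Polynomial.eval₂_C, algebraMap_int_eq, Int.coe_castRingHom]
    rw [h]; ring
  obtain ⟨y, hy⟩ := IsIntegrallyClosed.isIntegral_iff.mp this
  exact ⟨y, hy⟩

theorem root_sq {A B x y e e1 : ℚ} (hy : y ≠ 0) (hxy : y ^ 2 = x ^ 3 + A * x + B)
    (he : e ^ 3 + A * e + B = 0) (h1 : e1 = ((3 * x ^ 2 + A) / (2 * y)) ^ 2 - 2 * x) :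
    e1 - e = ((x ^ 2 - 2 * e * x - A - 2 * e ^ 2) / (2 * y)) ^ 2 := by
  have hB : B = -e ^ 3 - A * e := by linarith
  have h2y : (2 * y) ^ 2 ≠ 0 := by positivity
  rw [h1, div_pow, div_pow]
  rw [eq_div_iff h2y, sub_mul, sub_mul, div_mul_cancel₀ _ h2y]
  have : (2 * y) ^ 2 = 4 * (x ^ 3 + A * x + B) := by rw [← hxy]; ring
  rw [this, hB]
  ring

/-- the relation between a curve and its parameters -/
def Rel (c ab : ℤ × ℤ) : Prop := ∃ g e : ℤ, 0 < g ∧ IsCoprime ab.1 ab.2 ∧ ab.1 ≠ 0 ∧ ab.2 ≠ 0 ∧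
  ab.1 ^ 2 ≠ ab.2 ^ 2 ∧ 3 * e = g ^ 2 * (ab.1 ^ 2 + ab.2 ^ 2) ∧
  3 * c.1 = -(g ^ 4 * (ab.1 ^ 4 - ab.1 ^ 2 * ab.2 ^ 2 + ab.2 ^ 4)) ∧
  27 * c.2 = g ^ 6 * ((ab.1 ^ 2 + ab.2 ^ 2) * (2 * ab.1 ^ 2 - ab.2 ^ 2) * (ab.1 ^ 2 - 2 * ab.2 ^ 2))

theorem core {A B : ℤ} (hD : 4 * A ^ 3 + 27 * B ^ 2 ≠ 0) (hT : HasT 4 (Sh A B)) :
    ∃ ab, Rel (A, B) ab := by
  obtain ⟨P, Q, hP, hQ, hPQ⟩ := hT
  obtain ⟨x, y, e1, e2, hy, hxy, r1, r2, hne, h1⟩ := four_tors hP hQ hPQ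
  -- third root
  have hs : e1 ^ 2 + e1 * e2 + e2 ^ 2 + A = 0 := by
    have : (e1 - e2) * (e1 ^ 2 + e1 * e2 + e2 ^ 2 + A) = 0 := by linear_combination r1 - r2
    exact (mul_eq_zero.mp this).resolve_left (sub_ne_zero.mpr hne)
  have r3 : (-e1 - e2) ^ 3 + A * (-e1 - e2) + B = 0 := by
    linear_combination r1 + (-2 * e1 - e2) * hs
  have s2 := root_sq hy hxy r2 h1
  have s3 := root_sq hy hxy r3 h1
  set m : ℚ := (x ^ 2 - 2 * e2 * x - A - 2 * e2 ^ 2) / (2 * y) with hm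
  set n : ℚ := (x ^ 2 - 2 * (-e1 - e2) * x - A - 2 * (-e1 - e2) ^ 2) / (2 * y) with hn
  clear_value m n
  obtain ⟨E1, hE1⟩ := int_root r1
  obtain ⟨E2, hE2⟩ := int_root r2
  obtain ⟨m', hm'⟩ := int_sqrt (M := E1 - E2) (m := m) (by push_cast; rw [hE1, hE2]; exact s2)
  obtain ⟨n', hn'⟩ := int_sqrt (M := 2 * E1 + E2) (m := n) (by
    push_cast; rw [hE1, hE2, ← s3]; ring)
  -- integral relations
  have t1 : E1 - E2 = m' ^ 2 := by
    have : ((E1 - E2 : ℤ) : ℚ) = ((m' ^ 2 : ℤ) : ℚ) := by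
      push_cast; rw [hE1, hE2, hm']; exact s2
    exact_mod_cast this
  have t2 : 2 * E1 + E2 = n' ^ 2 := by
    have : ((2 * E1 + E2 : ℤ) : ℚ) = ((n' ^ 2 : ℤ) : ℚ) := by
      push_cast; rw [hE1, hE2, hn', ← s3]; ring
    exact_mod_cast this
  have t3 : E1 ^ 2 + E1 * E2 + E2 ^ 2 + A = 0 := by
    have : ((E1 ^ 2 + E1 * E2 + E2 ^ 2 + A : ℤ) : ℚ) = ((0 : ℤ) : ℚ) := by
      push_cast; rw [hE1, hE2]; exact hs
    exact_mod_cast this
  have t4 : E1 ^ 3 + A * E1 + B = 0 := by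
    have : ((E1 ^ 3 + A * E1 + B : ℤ) : ℚ) = ((0 : ℤ) : ℚ) := by
      push_cast; rw [hE1]; exact r1
    exact_mod_cast this
  have hA : A = -(E1 ^ 2 + E1 * E2 + E2 ^ 2) := by linarith
  have hB : B = E1 * E2 * (E1 + E2) := by
    rw [hA] at t4
    linear_combination t4
  have n12 : E1 ≠ E2 := by
    intro h
    apply hne
    rw [← hE1, ← hE2, h]
  have n13 : 2 * E1 + E2 ≠ 0 := by
    intro h
    apply hD
    have : E2 = -2 * E1 := by linarith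
    rw [hA, hB, this]
    ring
  have n23 : E1 + 2 * E2 ≠ 0 := by
    intro h
    apply hD
    have : E1 = -2 * E2 := by linarith
    rw [hA, hB, this]
    ring
  have hm0 : m' ≠ 0 := by
    rintro rfl
    apply n12; linarith
  have hn0 : n' ≠ 0 := by
    rintro rfl
    apply n13; linarith
  have hmn : m' ^ 2 ≠ n' ^ 2 := by
    rw [← t1, ← t2]
    intro h
    apply n23; linarith
  have hg0 : 0 < Int.gcd m' n' := Int.gcd_pos_of_ne_zero_left _ hm0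
  obtain ⟨a, b, hab, ha, hb⟩ := Int.exists_gcd_one hg0
  set g : ℤ := (Int.gcd m' n' : ℤ) with hg
  have hgpos : 0 < g := by rw [hg]; exact_mod_cast hg0
  have u1 : 3 * E1 = g ^ 2 * (a ^ 2 + b ^ 2) := by
    have : 3 * E1 = m' ^ 2 + n' ^ 2 := by linarith
    rw [this, ha, hb]; ring
  have u2 : 3 * E2 = g ^ 2 * (b ^ 2 - 2 * a ^ 2) := by
    have : 3 * E2 = n' ^ 2 - 2 * m' ^ 2 := by linarith
    rw [this, ha, hb]; ring
  refine ⟨(a, b), g, E1, hgpos, Int.isCoprime_iff_gcd_eq_one.mpr hab, ?_, ?_, ?_, u1, ?_, ?_⟩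
  · rintro rfl
    exact hm0 (by rw [ha]; simp)
  · rintro rfl
    exact hn0 (by rw [hb]; simp)
  · intro h
    apply hmn
    change a ^ 2 = b ^ 2 at h
    rw [ha, hb, mul_pow, mul_pow, h]
  · change 3 * A = -(g ^ 4 * (a ^ 4 - a ^ 2 * b ^ 2 + b ^ 4))
    have h9 : 3 * (3 * A) = 3 * (-(g ^ 4 * (a ^ 4 - a ^ 2 * b ^ 2 + b ^ 4))) := by
      have : 3 * (3 * A) = -((3 * E1) ^ 2 + (3 * E1) * (3 * E2) + (3 * E2) ^ 2) := by
        rw [hA]; ring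
      rw [this, u1, u2]
      ring
    linarith
  · change 27 * B = g ^ 6 * ((a ^ 2 + b ^ 2) * (2 * a ^ 2 - b ^ 2) * (a ^ 2 - 2 * b ^ 2))
    have : 27 * B = (3 * E1) * (3 * E2) * (3 * E1 + 3 * E2) := by rw [hB]; ring
    rw [this, u1, u2]
    ring

/-- a minimal curve is determined by its parameters -/
theorem scale_one {A B A' B' P R g g' : ℤ} (hg : 0 < g)
    (hA : 3 * A = -(g ^ 4 * P)) (hB : 27 * B = g ^ 6 * R) (hA' : 3 * A' = -(g' ^ 4 * P))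
    (hB' : 27 * B' = g' ^ 6 * R) (hmin : ∀ p : ℕ, p.Prime → ¬ ((p : ℤ) ^ 4 ∣ A ∧ (p : ℤ) ^ 6 ∣ B)) :
    g ∣ g' := by
  have hd0 : 0 < Int.gcd g g' := Int.gcd_pos_of_ne_zero_left _ hg.ne'
  obtain ⟨k, k', hk, hgk, hgk'⟩ := Int.exists_gcd_one hd0
  set d : ℤ := (Int.gcd g g' : ℤ) with hd
  have hdpos : 0 < d := by rw [hd]; exact_mod_cast hd0
  have hco : IsCoprime k k' := Int.isCoprime_iff_gcd_eq_one.mpr hk
  have e1 : A * k' ^ 4 = A' * k ^ 4 := by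
    have : 3 * (A * k' ^ 4) = 3 * (A' * k ^ 4) := by
      calc 3 * (A * k' ^ 4) = (3 * A) * k' ^ 4 := by ring
        _ = (3 * A') * k ^ 4 := by rw [hA, hA', hgk, hgk']; ring
        _ = 3 * (A' * k ^ 4) := by ring
    linarith
  have e2 : B * k' ^ 6 = B' * k ^ 6 := by
    have : 27 * (B * k' ^ 6) = 27 * (B' * k ^ 6) := by
      calc 27 * (B * k' ^ 6) = (27 * B) * k' ^ 6 := by ring
        _ = (27 * B') * k ^ 6 := by rw [hB, hB', hgk, hgk']; ring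
        _ = 27 * (B' * k ^ 6) := by ring
    linarith
  have d1 : k ^ 4 ∣ A := by
    have : k ^ 4 ∣ A * k' ^ 4 := ⟨A', by rw [e1]; ring⟩
    exact (hco.pow (m := 4) (n := 4)).dvd_of_dvd_mul_right this
  have d2 : k ^ 6 ∣ B := by
    have : k ^ 6 ∣ B * k' ^ 6 := ⟨B', by rw [e2]; ring⟩
    exact (hco.pow (m := 6) (n := 6)).dvd_of_dvd_mul_right this
  have hk1 : k.natAbs = 1 := by
    by_contra h
    obtain ⟨p, hp, hpk⟩ := Nat.exists_prime_and_dvd h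
    have hpk' : (p : ℤ) ∣ k := Int.natCast_dvd.mpr hpk
    exact hmin p hp ⟨(pow_dvd_pow_of_dvd hpk' 4).trans d1, (pow_dvd_pow_of_dvd hpk' 6).trans d2⟩
  have hkpos : 0 < k := by
    by_contra h
    push Not at h
    have : g ≤ 0 := by rw [hgk]; exact mul_nonpos_of_nonpos_of_nonneg h hdpos.le
    linarith
  have hk2 : k = 1 := by omega
  rw [hgk, hgk', hk2, one_mul]
  exact dvd_mul_left _ _

open Classical in
/-- the parameters -/
noncomputable def FF (c : ℤ × ℤ) : ℤ × ℤ := if h : ∃ ab, Rel c ab then h.choose else (0, 0)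

theorem FF_rel {c : ℤ × ℤ} (h : ∃ ab, Rel c ab) : Rel c (FF c) := by
  unfold FF
  rw [dif_pos h]
  exact h.choose_spec

theorem rel_unique {c c' ab : ℤ × ℤ} (h : Rel c ab) (h' : Rel c' ab)
    (hmin : ∀ p : ℕ, p.Prime → ¬ ((p : ℤ) ^ 4 ∣ c.1 ∧ (p : ℤ) ^ 6 ∣ c.2))
    (hmin' : ∀ p : ℕ, p.Prime → ¬ ((p : ℤ) ^ 4 ∣ c'.1 ∧ (p : ℤ) ^ 6 ∣ c'.2)) : c = c' := by
  obtain ⟨g, e, hg, -, -, -, -, -, hA, hB⟩ := h
  obtain ⟨g', e', hg', -, -, -, -, -, hA', hB'⟩ := h'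
  have h1 := scale_one hg hA hB hA' hB' hmin
  have h2 := scale_one hg' hA' hB' hA hB hmin'
  have h3 : g = g' := Int.dvd_antisymm hg.le hg'.le h1 h2
  subst h3
  apply Prod.ext
  · linarith
  · linarith

theorem rel_bound {A B : ℤ} {ab : ℤ × ℤ} (h : Rel (A, B) ab) {H : ℕ} (hH : 4 * |A| ^ 3 ≤ H) :
    ab.1.natAbs ^ 12 ≤ 54 * H ∧ ab.2.natAbs ^ 12 ≤ 54 * H := by
  obtain ⟨a, b⟩ := ab
  obtain ⟨g, e, hg, -, -, -, -, -, hA, -⟩ := h
  change 3 * A = -(g ^ 4 * (a ^ 4 - a ^ 2 * b ^ 2 + b ^ 4)) at hA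
  have hP : 0 ≤ a ^ 4 - a ^ 2 * b ^ 2 + b ^ 4 := by nlinarith [sq_nonneg (a ^ 2 - b ^ 2), sq_nonneg (a * b)]
  have hg1 : 1 ≤ g ^ 4 := one_le_pow₀ (by omega)
  have h1 : a ^ 4 - a ^ 2 * b ^ 2 + b ^ 4 ≤ 3 * |A| := by
    have e1 : 3 * |A| = g ^ 4 * (a ^ 4 - a ^ 2 * b ^ 2 + b ^ 4) := by
      have : |3 * A| = |-(g ^ 4 * (a ^ 4 - a ^ 2 * b ^ 2 + b ^ 4))| := by rw [hA]
      rw [abs_mul, abs_neg, abs_of_nonneg (mul_nonneg (by positivity) hP)] at this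
      simpa using this
    rw [e1]
    nlinarith
  have h2 : a ^ 4 + b ^ 4 ≤ 6 * |A| := by nlinarith [sq_nonneg (a ^ 2 - b ^ 2)]
  have key : ∀ x : ℤ, x ^ 4 ≤ 6 * |A| → x.natAbs ^ 12 ≤ 54 * H := by
    intro x hx
    have h3 : (x ^ 4) ^ 3 ≤ (6 * |A|) ^ 3 := pow_le_pow_left₀ (by positivity) hx 3
    have h4 : ((x.natAbs ^ 12 : ℕ) : ℤ) ≤ ((54 * H : ℕ) : ℤ) := by
      have e2 : ((x.natAbs ^ 12 : ℕ) : ℤ) = (x ^ 4) ^ 3 := by
        push_cast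
        rw [← pow_mul]
        have : |x| ^ 12 = x ^ 12 := Even.pow_abs (by decide) x
        exact this
      rw [e2]
      push_cast
      have e3 : (6 * |A|) ^ 3 = 54 * (4 * |A| ^ 3) := by ring
      rw [e3] at h3
      linarith
    exact_mod_cast h4
  have ha4 : 0 ≤ a ^ 4 := by positivity
  have hb4 : 0 ≤ b ^ 4 := by positivity
  exact ⟨key a (by linarith), key b (by linarith)⟩

theorem par4_of (h : Pool.Agent.W307.RT.ISO) : Pool.Agent.W307.RT.PAR4 := by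
  refine ⟨54, FF, fun H => ⟨?_, ?_⟩⟩
  · intro c hc c' hc' hcc
    rw [Finset.mem_coe] at hc hc'
    simp only [Cv, Finset.mem_filter] at hc hc'
    obtain ⟨-, hD, -, -, hmin, hT⟩ := hc
    obtain ⟨-, hD', -, -, hmin', hT'⟩ := hc'
    have r := FF_rel (core hD hT)
    have r' := FF_rel (core hD' hT')
    change Rel c (FF c) at r
    change Rel c' (FF c') at r'
    rw [← hcc] at r'
    exact rel_unique r r' hmin hmin'
  · intro c hc
    simp only [Cv, Finset.mem_filter] at hc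
    obtain ⟨-, hD, hH, -, hmin, hT⟩ := hc
    have r := FF_rel (core hD hT)
    change Rel c (FF c) at r
    obtain ⟨hb1, hb2⟩ := rel_bound (A := c.1) (B := c.2) r hH
    set ab := FF c with hab
    clear_value ab
    obtain ⟨A, B⟩ := c
    obtain ⟨a, b⟩ := ab
    obtain ⟨g, e, hg, hco, ha0, hb0, hne, he, hA, hB⟩ := r
    change a ≠ 0 at ha0
    change b ≠ 0 at hb0
    change a ^ 2 ≠ b ^ 2 at hne
    change 3 * e = g ^ 2 * (a ^ 2 + b ^ 2) at he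
    change 3 * A = -(g ^ 4 * (a ^ 4 - a ^ 2 * b ^ 2 + b ^ 4)) at hA
    change 27 * B = g ^ 6 * ((a ^ 2 + b ^ 2) * (2 * a ^ 2 - b ^ 2) * (a ^ 2 - 2 * b ^ 2)) at hB
    refine ⟨hco, ?_, ?_, ?_, hb1, hb2, ?_⟩
    · exact pow_ne_zero 2 ha0
    · exact pow_ne_zero 2 hb0
    · exact hne
    · have hgq : (g : ℚ) ≠ 0 := by exact_mod_cast hg.ne'
      have heq : (e : ℚ) = (g : ℚ) ^ 2 * ((a : ℚ) ^ 2 + (b : ℚ) ^ 2) / 3 := by
        have : (3 : ℚ) * e = (g : ℚ) ^ 2 * ((a : ℚ) ^ 2 + (b : ℚ) ^ 2) := by exact_mod_cast he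
        linarith
      have hAq : (A : ℚ) = -((g : ℚ) ^ 4 * ((a : ℚ) ^ 4 - (a : ℚ) ^ 2 * (b : ℚ) ^ 2 + (b : ℚ) ^ 4)) / 3 := by
        have : (3 : ℚ) * A = -((g : ℚ) ^ 4 * ((a : ℚ) ^ 4 - (a : ℚ) ^ 2 * (b : ℚ) ^ 2 + (b : ℚ) ^ 4)) := by
          exact_mod_cast hA
        linarith
      have hBq : (B : ℚ) = (g : ℚ) ^ 6 * (((a : ℚ) ^ 2 + (b : ℚ) ^ 2) * (2 * (a : ℚ) ^ 2 - (b : ℚ) ^ 2) *
          ((a : ℚ) ^ 2 - 2 * (b : ℚ) ^ 2)) / 27 := by
        have : (27 : ℚ) * B = (g : ℚ) ^ 6 * (((a : ℚ) ^ 2 + (b : ℚ) ^ 2) *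
            (2 * (a : ℚ) ^ 2 - (b : ℚ) ^ 2) * ((a : ℚ) ^ 2 - 2 * (b : ℚ) ^ 2)) := by exact_mod_cast hB
        linarith
      obtain ⟨φ⟩ := h 0 A B e g hgq
      have hW : (⟨0, ((0 : ℚ) + 3 * e) / (g : ℚ) ^ 2, 0,
          ((A : ℚ) + 2 * e * 0 + 3 * (e : ℚ) ^ 2) / (g : ℚ) ^ 4,
          ((B : ℚ) + e * A + (e : ℚ) ^ 2 * 0 + (e : ℚ) ^ 3) / (g : ℚ) ^ 6⟩ : WeierstrassCurve ℚ)
          = EAB (-(M4 a b)) (-(N4 a b)) := by
        unfold EAB M4 N4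
        simp only [WeierstrassCurve.mk.injEq, true_and]
        refine ⟨?_, ?_, ?_⟩
        · rw [heq]; push_cast; field_simp; ring
        · rw [heq, hAq]; push_cast; field_simp; ring
        · rw [heq, hAq, hBq]; field_simp; ring
      rw [hW] at φ
      change Module.finrank ℤ (Sh A B).toAffine.Point =
        Module.finrank ℤ (EAB (-(M4 a b)) (-(N4 a b))).toAffine.Point
      exact LinearEquiv.finrank_eq φ.toIntLinearEquiv

end Pool.Agent.W605.RT
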